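import Mathlib

/-!
# Block 5 of PROJECT ALL, row H9: the order drop, polynomials
-/

set_option autoImplicit false

open Polynomial

namespace Pool.Agent.ALLY

variable {k : Type*} [Field k]

/-- `(X - c)^M` divides no polynomial of degree `≤ M` without term `X^(M-1)`, when `M ≠ 0` in `k`
and `c ≠ 0`. -/
theorem rootMultiplicity_lt {M : ℕ} (hM : (M : k) ≠ 0) {Φ : k[X]} (hΦ : Φ ≠ 0)
    (hdeg : Φ.natDegree ≤ M) (hcoef : Φ.coeff (M - 1) = 0) {c : k} (hc : c ≠ 0) :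
    Φ.rootMultiplicity c < M := by
  have hM0 : M ≠ 0 := by
    rintro rfl
    exact hM (by simp)
  have h1 : Φ.rootMultiplicity c ≤ Φ.natDegree := by
    have h2 : (X - C c) ^ Φ.rootMultiplicity c ∣ Φ := pow_rootMultiplicity_dvd Φ c
    have h3 := natDegree_le_of_dvd h2 hΦ
    rwa [natDegree_pow, natDegree_X_sub_C, mul_one] at h3
  refine lt_of_le_of_ne (h1.trans hdeg) fun heq => ?_
  obtain ⟨g, hg⟩ : (X - C c) ^ M ∣ Φ := by
    have h2 := pow_rootMultiplicity_dvd Φ c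
    rwa [heq] at h2
  have hg0 : g ≠ 0 := by
    rintro rfl
    exact hΦ (by rw [hg, mul_zero])
  have hmon : ((X - C c) ^ M : k[X]).Monic := (monic_X_sub_C c).pow M
  have hgd : g.natDegree = 0 := by
    have h4 : Φ.natDegree = M + g.natDegree := by
      rw [hg, hmon.natDegree_mul' hg0, natDegree_pow, natDegree_X_sub_C, mul_one]
    omega
  obtain ⟨a, rfl⟩ : ∃ a, g = C a := ⟨g.coeff 0, eq_C_of_natDegree_eq_zero hgd⟩
  have ha : a ≠ 0 := fun h => hg0 (by rw [h, C_0])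
  rw [hg, coeff_mul_C] at hcoef
  have h5 : ((X - C c) ^ M : k[X]).coeff (M - 1) = -c * M := by
    rw [sub_eq_add_neg, ← C_neg, coeff_X_add_C_pow]
    have h6 : M - (M - 1) = 1 := by omega
    have h7 : M.choose (M - 1) = M := by
      rw [Nat.choose_symm (by omega : 1 ≤ M), Nat.choose_one_right]
    rw [h6, pow_one, h7]
  rw [h5] at hcoef
  exact (mul_ne_zero (mul_ne_zero (neg_ne_zero.mpr hc) hM) ha) hcoef

/-- Factor a power of `X` out of a polynomial: the exponent is the multiplicity of the root `0`. -/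
theorem exists_X_pow_mul {Φ : k[X]} (hΦ : Φ ≠ 0) :
    ∃ g : k[X], g.eval 0 ≠ 0 ∧ Φ = X ^ Φ.rootMultiplicity 0 * g := by
  obtain ⟨g, hg, hg0⟩ := exists_eq_pow_rootMultiplicity_mul_and_not_dvd Φ hΦ 0
  rw [C_0, sub_zero] at hg hg0
  refine ⟨g, fun h => hg0 ?_, hg⟩
  rw [X_dvd_iff, coeff_zero_eq_eval_zero]
  exact h

/-- Row H9, `q = 1`. In the coordinate `X = e (Z + c)`, `e, c ≠ 0`, a non-zero polynomial `Φ` of
degree `≤ M` without term `X^(M-1)` is `Z^M' g(Z)` with `M' < M`, `g(0) ≠ 0`. -/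
theorem exists_drop_one {M : ℕ} (hM : (M : k) ≠ 0) {Φ : k[X]} (hΦ : Φ ≠ 0)
    (hdeg : Φ.natDegree ≤ M) (hcoef : Φ.coeff (M - 1) = 0) {e c : k} (he : e ≠ 0) (hc : c ≠ 0) :
    ∃ (M' : ℕ) (g : k[X]), M' < M ∧ g.eval 0 ≠ 0 ∧ Φ.comp (C e * (X + C c)) = X ^ M' * g := by
  have hM0 : M ≠ 0 := by
    rintro rfl
    exact hM (by simp)
  obtain ⟨g, hg, hg0⟩ := exists_eq_pow_rootMultiplicity_mul_and_not_dvd Φ hΦ (e * c)
  have hlt := rootMultiplicity_lt hM hΦ hdeg hcoef (mul_ne_zero he hc)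
  refine ⟨Φ.rootMultiplicity (e * c), C (e ^ Φ.rootMultiplicity (e * c)) *
    g.comp (C e * (X + C c)), hlt, ?_, ?_⟩
  · have h1 : g.eval (e * c) ≠ 0 := fun h => hg0 (dvd_iff_isRoot.mpr h)
    simp only [eval_mul, eval_C, eval_comp, eval_add, eval_X, zero_add]
    exact mul_ne_zero (pow_ne_zero _ he) h1
  · conv_lhs => rw [hg]
    rw [mul_comp, pow_comp, sub_comp, X_comp, C_comp]
    have h2 : (C e * (X + C c) - C (e * c) : k[X]) = C e * X := by
      rw [C_mul]; ring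
    rw [h2, mul_pow, ← C_pow]
    ring

/-- Row H9, `q ≥ 2`. -/
theorem exists_drop_q {M q : ℕ} (hM : 0 < M) (hq : 2 ≤ q) {Φ : k[X]} (hΦ : Φ ≠ 0)
    (hdeg : Φ.natDegree ≤ M / q) (c : k) :
    ∃ (M' : ℕ) (g : k[X]), M' < M ∧ g.eval 0 ≠ 0 ∧ Φ.comp (X + C c) = X ^ M' * g := by
  obtain ⟨g, hg, hg0⟩ := exists_eq_pow_rootMultiplicity_mul_and_not_dvd Φ hΦ c
  have h1 : Φ.rootMultiplicity c ≤ Φ.natDegree := by
    have h2 : (X - C c) ^ Φ.rootMultiplicity c ∣ Φ := pow_rootMultiplicity_dvd Φ c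
    have h3 := natDegree_le_of_dvd h2 hΦ
    rwa [natDegree_pow, natDegree_X_sub_C, mul_one] at h3
  refine ⟨Φ.rootMultiplicity c, g.comp (X + C c), ?_, ?_, ?_⟩
  · have h4 : M / q < M := Nat.div_lt_self hM (by omega)
    omega
  · have h5 : g.eval c ≠ 0 := fun h => hg0 (dvd_iff_isRoot.mpr h)
    simpa only [eval_comp, eval_add, eval_X, eval_C, zero_add] using h5
  · conv_lhs => rw [hg]
    rw [mul_comp, pow_comp, sub_comp, X_comp, C_comp]
    ring

end Pool.Agent.ALLY
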