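import Pool.Agent.Lib.TAO.Basic

/-!
# Block 5 of PROJECT ALL, row H8: the lattice part of the T-step over an ordered field
-/

set_option autoImplicit false

namespace Pool.Agent.ALLY

open Pool.Agent.TAO (OVal)

section Lat

variable {𝕂 : Type*} [Field 𝕂] [LinearOrder 𝕂] [IsStrictOrderedRing 𝕂]

/-- `q` divides every `n` with `n β ∈ Γ`. -/
theorem lat_dvd {Γ : AddSubgroup 𝕂} {β : 𝕂} {q : ℕ} (hq : 0 < q) (hqβ : (q : 𝕂) * β ∈ Γ)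
    (hmin : ∀ m : ℕ, 0 < m → (m : 𝕂) * β ∈ Γ → q ≤ m) (n : ℤ) (hn : (n : 𝕂) * β ∈ Γ) :
    (q : ℤ) ∣ n := by
  have hqz : (0 : ℤ) < (q : ℤ) := by exact_mod_cast hq
  have hr0 : 0 ≤ n % (q : ℤ) := Int.emod_nonneg _ hqz.ne'
  have hrq : n % (q : ℤ) < q := Int.emod_lt_of_pos _ hqz
  obtain ⟨r, hr⟩ := Int.eq_ofNat_of_zero_le hr0
  rcases Nat.eq_zero_or_pos r with h0 | h0
  · apply Int.dvd_of_emod_eq_zero
    rw [hr, h0]; rfl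
  · exfalso
    have hdiv : (r : ℤ) = n - (n / (q : ℤ)) * q := by
      have := Int.emod_add_mul_ediv n (q : ℤ)
      rw [hr] at this
      linarith
    have hmem : (r : 𝕂) * β ∈ Γ := by
      have h1 : (r : 𝕂) = (n : 𝕂) - ((n / (q : ℤ) : ℤ) : 𝕂) * (q : 𝕂) := by
        have := congrArg (fun z : ℤ => (z : 𝕂)) hdiv
        push_cast at this
        exact_mod_cast this
      have h2 : (r : 𝕂) * β = (n : 𝕂) * β - (n / (q : ℤ)) • ((q : 𝕂) * β) := by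
        rw [h1, zsmul_eq_mul]; ring
      rw [h2]
      exact Γ.sub_mem hn (Γ.zsmul_mem hqβ _)
    have h3 := hmin r h0 hmem
    rw [hr] at hrq
    have : r < q := by exact_mod_cast hrq
    omega

/-- A primitive vector of a finitely generated free `ℤ`-module admits a functional with value
one on it. -/
theorem exists_functional {M : Type*} [AddCommGroup M] [Module.Free ℤ M] [Module.Finite ℤ M]
    (v : M) (hv : ∀ (d : ℤ) (w : M), v = d • w → IsUnit d) :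
    ∃ f : M →+ ℤ, f v = 1 := by
  classical
  let b := Module.Free.chooseBasis ℤ M
  let I : Ideal ℤ := Ideal.span (Set.range fun i => b.repr v i)
  obtain ⟨d, hd⟩ := (IsPrincipalIdealRing.principal I).principal
  have hdvd : ∀ i, d ∣ b.repr v i := by
    intro i
    have : b.repr v i ∈ I := Ideal.subset_span ⟨i, rfl⟩
    rw [hd] at this
    exact Ideal.mem_span_singleton.1 this
  choose w hw using hdvd
  have hv' : v = d • ∑ i, w i • b i := by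
    rw [Finset.smul_sum]
    conv_lhs => rw [← b.sum_repr v]
    refine Finset.sum_congr rfl fun i _ => ?_
    rw [smul_smul, ← hw i]
  have hunit := hv d _ hv'
  have hone : (1 : ℤ) ∈ I := by
    rw [hd]
    exact Ideal.mem_span_singleton.2 hunit.dvd
  obtain ⟨c, hc⟩ := (Submodule.mem_span_range_iff_exists_fun ℤ).1 hone
  refine ⟨(∑ i, c i • b.coord i).toAddMonoidHom, ?_⟩
  simp only [LinearMap.toAddMonoidHom_coe, LinearMap.coe_sum, Finset.sum_apply,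
    LinearMap.smul_apply, Module.Basis.coord_apply]
  exact hc

/-- Lattice data of a T-step: `q` is minimal with `q β ∈ Γ`, `s : Γ × ℤ → ℤ` is additive and
`s (-q β, q) = 1`. -/
structure LatData (Γ : AddSubgroup 𝕂) (β : 𝕂) (q : ℕ) (s : 𝕂 → ℤ → ℤ) : Prop where
  q_pos : 0 < q
  q_mem : (q : 𝕂) * β ∈ Γ
  q_min : ∀ m : ℕ, 0 < m → (m : 𝕂) * β ∈ Γ → q ≤ m
  s_add : ∀ γ ∈ Γ, ∀ δ ∈ Γ, ∀ l m : ℤ, s (γ + δ) (l + m) = s γ l + s δ m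
  s_one : s (-((q : 𝕂) * β)) q = 1

theorem fg_sup (Γ : AddSubgroup 𝕂) (hΓ : Γ.FG) (β : 𝕂) :
    (Γ ⊔ AddSubgroup.zmultiples β).FG := by
  obtain ⟨S, hS⟩ := hΓ
  classical
  refine ⟨S ∪ {β}, ?_⟩
  rw [Finset.coe_union, AddSubgroup.closure_union, hS, Finset.coe_singleton,
    ← AddSubgroup.zmultiples_eq_closure]

theorem mem_sup_lat {Γ : AddSubgroup 𝕂} {β γ : 𝕂} (hγ : γ ∈ Γ) (l : ℤ) :
    γ + l * β ∈ Γ ⊔ AddSubgroup.zmultiples β := by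
  refine AddSubgroup.add_mem _ (AddSubgroup.mem_sup_left hγ) (AddSubgroup.mem_sup_right ?_)
  exact AddSubgroup.mem_zmultiples_iff.2 ⟨l, zsmul_eq_mul _ _⟩

theorem exists_s (Γ : AddSubgroup 𝕂) (hΓ : Γ.FG) (β : 𝕂) (q : ℕ) (hq : 0 < q)
    (hqβ : (q : 𝕂) * β ∈ Γ) (hmin : ∀ m : ℕ, 0 < m → (m : 𝕂) * β ∈ Γ → q ≤ m) :
    ∃ s : 𝕂 → ℤ → ℤ, LatData Γ β q s := by
  classical
  haveI : Module.Finite ℤ Γ := by
    have : AddGroup.FG Γ := (AddGroup.fg_iff_addSubgroup_fg Γ).2 hΓ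
    exact Module.Finite.iff_addGroup_fg.2 inferInstance
  haveI : IsAddTorsionFree 𝕂 := inferInstance
  have : Module.Free ℤ Γ := inferInstance
  have hnq : -((q : 𝕂) * β) ∈ Γ := Γ.neg_mem hqβ
  obtain ⟨f, hf⟩ := exists_functional (M := Γ × ℤ) (⟨-((q : 𝕂) * β), hnq⟩, (q : ℤ)) (by
    rintro d ⟨w1, w2⟩ hw
    have h1 : -((q : 𝕂) * β) = (d : 𝕂) * (w1 : 𝕂) := by
      have := congrArg (fun y : Γ × ℤ => ((y.1 : Γ) : 𝕂)) hw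
      simpa [zsmul_eq_mul] using this
    have h2 : (q : ℤ) = d * w2 := by
      have := congrArg (fun y : Γ × ℤ => y.2) hw
      simpa using this
    have hd0 : d ≠ 0 := by
      rintro rfl
      rw [zero_mul] at h2
      have : (0 : ℤ) < q := by exact_mod_cast hq
      omega
    have h3 : (w2 : 𝕂) * β = -(w1 : 𝕂) := by
      have hdR : (d : 𝕂) ≠ 0 := by exact_mod_cast hd0
      have h4 : (q : 𝕂) = (d : 𝕂) * (w2 : 𝕂) := by exact_mod_cast h2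
      rw [h4] at h1
      apply mul_left_cancel₀ hdR
      linarith
    have h4 : (w2 : 𝕂) * β ∈ Γ := by
      rw [h3]; exact Γ.neg_mem w1.2
    obtain ⟨k, hk⟩ := lat_dvd hq hqβ hmin w2 h4
    have hqz : (q : ℤ) ≠ 0 := by exact_mod_cast hq.ne'
    have h5 : (q : ℤ) * 1 = q * (d * k) := by
      rw [mul_one]
      nth_rewrite 1 [h2]
      rw [hk]; ring
    have h6 := mul_left_cancel₀ hqz h5
    exact IsUnit.of_mul_eq_one k h6.symm)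
  refine ⟨fun γ l => if h : γ ∈ Γ then f (⟨γ, h⟩, l) else 0, hq, hqβ, hmin, ?_, ?_⟩
  · intro γ hγ δ hδ l m
    simp only [dif_pos hγ, dif_pos hδ, dif_pos (Γ.add_mem hγ hδ)]
    rw [← map_add]
    rfl
  · simp only [dif_pos hnq]
    exact hf

variable {Γ : AddSubgroup 𝕂} {β : 𝕂} {q : ℕ} {s : 𝕂 → ℤ → ℤ}

/-- `s` as a homomorphism. -/
noncomputable def LatData.hom (h : LatData Γ β q s) : Γ × ℤ →+ ℤ :=
  AddMonoidHom.mk' (fun x => s x.1 x.2) (fun x y => h.s_add _ x.1.2 _ y.1.2 _ _)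

theorem LatData.hom_apply (h : LatData Γ β q s) (x : Γ) (l : ℤ) :
    h.hom (x, l) = s x l := rfl

theorem LatData.s_zero (h : LatData Γ β q s) : s 0 0 = 0 :=
  map_zero h.hom

theorem LatData.s_sub (h : LatData Γ β q s) {γ δ : 𝕂} (hγ : γ ∈ Γ) (hδ : δ ∈ Γ) (l m : ℤ) :
    s (γ - δ) (l - m) = s γ l - s δ m :=
  map_sub h.hom ((⟨γ, hγ⟩, l) : Γ × ℤ) (⟨δ, hδ⟩, m)

theorem LatData.s_zsmul (h : LatData Γ β q s) (k : ℤ) {γ : 𝕂} (hγ : γ ∈ Γ) (l : ℤ) :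
    s (k * γ) (k * l) = k * s γ l := by
  have h1 := map_zsmul h.hom k ((⟨γ, hγ⟩, l) : Γ × ℤ)
  have h2 : k • ((⟨γ, hγ⟩, l) : Γ × ℤ) = (k • (⟨γ, hγ⟩ : Γ), k * l) := rfl
  rw [h2, h.hom_apply, h.hom_apply, smul_eq_mul, AddSubgroup.coe_zsmul, zsmul_eq_mul] at h1
  exact h1

theorem LatData.s_ker (h : LatData Γ β q s) (k : ℤ) :
    s (-((k * q : ℤ) : 𝕂) * β) (k * q) = k := by
  have h1 := h.s_zsmul k (Γ.neg_mem h.q_mem) q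
  rw [h.s_one, mul_one] at h1
  have h2 : -((k * q : ℤ) : 𝕂) * β = (k : 𝕂) * -((q : 𝕂) * β) := by
    push_cast
    ring
  rw [h2]
  exact h1

/-- Elements of the same class `γ + l β = δ + m β`: `l - m` is `q` times `s γ l - s δ m`. -/
theorem LatData.same (h : LatData Γ β q s) {γ δ : 𝕂} (hγ : γ ∈ Γ) (hδ : δ ∈ Γ) {l m : ℤ}
    (h1 : γ + l * β = δ + m * β) : l - m = q * (s γ l - s δ m) := by
  have h2 : γ - δ = -((l - m : ℤ) : 𝕂) * β := by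
    push_cast; linarith
  have h3 : ((l - m : ℤ) : 𝕂) * β ∈ Γ := by
    have : ((l - m : ℤ) : 𝕂) * β = -(γ - δ) := by rw [h2]; ring
    rw [this]
    exact Γ.neg_mem (Γ.sub_mem hγ hδ)
  obtain ⟨k, hk⟩ := lat_dvd h.q_pos h.q_mem h.q_min _ h3
  have h4 := h.s_sub hγ hδ l m
  rw [h2, hk, mul_comm (q : ℤ) k, h.s_ker k] at h4
  rw [← h4, hk]

/-- `(γ, l) ↦ (γ + l β, s γ l)` is injective on `Γ × ℤ`. -/
theorem LatData.inj (h : LatData Γ β q s) {γ δ : 𝕂} (hγ : γ ∈ Γ) (hδ : δ ∈ Γ) {l m : ℤ}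
    (h1 : γ + l * β = δ + m * β) (h2 : s γ l = s δ m) : γ = δ ∧ l = m := by
  have h3 := h.same hγ hδ h1
  rw [h2, sub_self, mul_zero, sub_eq_zero] at h3
  subst h3
  exact ⟨by linarith, rfl⟩

/-- `(γ, l) ↦ (γ + l β, s γ l)` is surjective onto `Γ' × ℤ`. -/
theorem LatData.surj (h : LatData Γ β q s) {γ' : 𝕂}
    (hγ' : γ' ∈ Γ ⊔ AddSubgroup.zmultiples β) (j : ℤ) :
    ∃ γ ∈ Γ, ∃ l : ℤ, γ + l * β = γ' ∧ s γ l = j := by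
  obtain ⟨γ0, hγ0, z, hz, hsum⟩ := AddSubgroup.mem_sup.1 hγ'
  obtain ⟨l0, hl0⟩ := AddSubgroup.mem_zmultiples_iff.1 hz
  rw [zsmul_eq_mul] at hl0
  set k := j - s γ0 l0 with hk
  have hker : -((k * q : ℤ) : 𝕂) * β ∈ Γ := by
    have : -((k * q : ℤ) : 𝕂) * β = k • (-((q : 𝕂) * β)) := by
      rw [zsmul_eq_mul]; push_cast; ring
    rw [this]
    exact Γ.zsmul_mem (Γ.neg_mem h.q_mem) _
  refine ⟨γ0 + -((k * q : ℤ) : 𝕂) * β, Γ.add_mem hγ0 hker, l0 + k * q, ?_, ?_⟩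
  · rw [← hsum, ← hl0]
    push_cast
    ring
  · rw [h.s_add _ hγ0 _ hker, h.s_ker]
    omega

/-- The representative of `γ'` in `Γ × ℤ` with `s = 0`. -/
noncomputable def LatData.sec (h : LatData Γ β q s) (γ' : 𝕂) : 𝕂 × ℤ :=
  open Classical in
  if hγ' : γ' ∈ Γ ⊔ AddSubgroup.zmultiples β then
    ((h.surj hγ' 0).choose, (h.surj hγ' 0).choose_spec.2.choose) else (0, 0)

theorem LatData.sec_spec (h : LatData Γ β q s) {γ' : 𝕂}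
    (hγ' : γ' ∈ Γ ⊔ AddSubgroup.zmultiples β) :
    (h.sec γ').1 ∈ Γ ∧ (h.sec γ').1 + (h.sec γ').2 * β = γ' ∧
      s (h.sec γ').1 (h.sec γ').2 = 0 := by
  unfold LatData.sec
  rw [dif_pos hγ']
  exact ⟨(h.surj hγ' 0).choose_spec.1, (h.surj hγ' 0).choose_spec.2.choose_spec.1,
    (h.surj hγ' 0).choose_spec.2.choose_spec.2⟩

end Lat

section Step

variable {𝕂 : Type*} [Field 𝕂] [LinearOrder 𝕂] [IsStrictOrderedRing 𝕂]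
variable {Ω : Type*} [Field Ω] {v : OVal 𝕂 Ω}
variable {Γ : AddSubgroup 𝕂} {β : 𝕂} {q : ℕ} {s : 𝕂 → ℤ → ℤ}

/-- The new monomials of a T-step by `z`, `v z = β`: `χ'' (γ + l β) = χ γ z^l W^(-s γ l)`, with
`W = z^q / χ (q β)`. -/
noncomputable def chiT (h : LatData Γ β q s) (χ : 𝕂 → Ω) (z : Ω) (γ' : 𝕂) : Ω :=
  χ (h.sec γ').1 * z ^ (h.sec γ').2

theorem chi_zero {χ : 𝕂 → Ω} (χ_ne : ∀ γ ∈ Γ, χ γ ≠ 0)
    (χ_add : ∀ γ ∈ Γ, ∀ δ ∈ Γ, χ (γ + δ) = χ γ * χ δ) : χ 0 = 1 := by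
  have h := χ_add 0 Γ.zero_mem 0 Γ.zero_mem
  rw [add_zero] at h
  exact (mul_right_cancel₀ (χ_ne 0 Γ.zero_mem) (by rw [one_mul, ← h])).symm

theorem chi_neg {χ : 𝕂 → Ω} (χ_ne : ∀ γ ∈ Γ, χ γ ≠ 0)
    (χ_add : ∀ γ ∈ Γ, ∀ δ ∈ Γ, χ (γ + δ) = χ γ * χ δ) {γ : 𝕂} (hγ : γ ∈ Γ) :
    χ (-γ) = (χ γ)⁻¹ := by
  have h := χ_add γ hγ (-γ) (Γ.neg_mem hγ)
  rw [add_neg_cancel, chi_zero χ_ne χ_add] at h
  exact eq_inv_of_mul_eq_one_right h.symm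

theorem chi_zmul {χ : 𝕂 → Ω} (χ_ne : ∀ γ ∈ Γ, χ γ ≠ 0)
    (χ_add : ∀ γ ∈ Γ, ∀ δ ∈ Γ, χ (γ + δ) = χ γ * χ δ) {γ : 𝕂} (hγ : γ ∈ Γ) (n : ℤ) :
    χ (n * γ) = χ γ ^ n := by
  have hnat : ∀ m : ℕ, χ (m * γ) = χ γ ^ m := by
    intro m
    induction m with
    | zero => simp [chi_zero χ_ne χ_add]
    | succ m ih =>
      have h1 : ((m : ℕ) : 𝕂) * γ ∈ Γ := by
        rw [← nsmul_eq_mul]; exact Γ.nsmul_mem hγ m
      have h2 : (((m + 1 : ℕ) : 𝕂)) * γ = (m : 𝕂) * γ + γ := by push_cast; ring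
      rw [h2, χ_add _ h1 _ hγ, ih, pow_succ]
  rcases Int.eq_nat_or_neg n with ⟨m, rfl | rfl⟩
  · rw [zpow_natCast, ← hnat m]
    push_cast
    rfl
  · have h1 : ((m : ℕ) : 𝕂) * γ ∈ Γ := by
      rw [← nsmul_eq_mul]; exact Γ.nsmul_mem hγ m
    have h2 : ((-(m : ℤ) : ℤ) : 𝕂) * γ = -((m : 𝕂) * γ) := by push_cast; ring
    rw [h2, chi_neg χ_ne χ_add h1, hnat m, zpow_neg, zpow_natCast]

/-- The formula of the T-step. -/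
theorem chiT_eq (h : LatData Γ β q s) {χ : 𝕂 → Ω} (χ_ne : ∀ γ ∈ Γ, χ γ ≠ 0)
    (χ_add : ∀ γ ∈ Γ, ∀ δ ∈ Γ, χ (γ + δ) = χ γ * χ δ) {z : Ω} (hz : z ≠ 0)
    {γ : 𝕂} (hγ : γ ∈ Γ) (l : ℤ) :
    χ γ * z ^ l = chiT h χ z (γ + l * β) * (z ^ q / χ (q * β)) ^ s γ l := by
  obtain ⟨h1, h2, h3⟩ := h.sec_spec (mem_sup_lat hγ (β := β) l)
  set δ := (h.sec (γ + l * β)).1 with hδ
  set m := (h.sec (γ + l * β)).2 with hm
  have h4 := h.same hγ h1 h2.symm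
  rw [h3, sub_zero] at h4
  -- `γ = δ - s q β`, `l = m + s q`
  have h5 : γ = δ + ((-(s γ l) : ℤ) : 𝕂) * ((q : 𝕂) * β) := by
    have h6 : (l : 𝕂) - m = q * s γ l := by exact_mod_cast h4
    have h7 : (l : 𝕂) = m + q * s γ l := by linarith
    rw [h7] at h2
    push_cast
    linarith
  have h6 : ((-(s γ l) : ℤ) : 𝕂) * ((q : 𝕂) * β) ∈ Γ := by
    rw [← zsmul_eq_mul]; exact Γ.zsmul_mem h.q_mem _
  have h7 : χ γ = χ δ * χ (q * β) ^ (-(s γ l)) := by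
    conv_lhs => rw [h5]
    rw [χ_add _ h1 _ h6, chi_zmul χ_ne χ_add h.q_mem]
  have h8 : l = m + q * s γ l := by linarith
  have h9 : z ^ l = z ^ m * (z ^ q) ^ s γ l := by
    conv_lhs => rw [h8]
    rw [zpow_add₀ hz, zpow_mul, zpow_natCast]
  rw [h7, h9]
  change _ = χ δ * z ^ m * _
  rw [div_zpow, zpow_neg, div_eq_mul_inv]
  ring

theorem chiT_ne (h : LatData Γ β q s) {χ : 𝕂 → Ω} (χ_ne : ∀ γ ∈ Γ, χ γ ≠ 0) {z : Ω} (hz : z ≠ 0)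
    {γ' : 𝕂} (hγ' : γ' ∈ Γ ⊔ AddSubgroup.zmultiples β) : chiT h χ z γ' ≠ 0 :=
  mul_ne_zero (χ_ne _ (h.sec_spec hγ').1) (zpow_ne_zero _ hz)

theorem chiT_val (h : LatData Γ β q s) {χ : 𝕂 → Ω} (χ_ne : ∀ γ ∈ Γ, χ γ ≠ 0)
    (χ_val : ∀ γ ∈ Γ, v (χ γ) = γ) {z : Ω} (hz : z ≠ 0) (hvz : v z = β)
    {γ' : 𝕂} (hγ' : γ' ∈ Γ ⊔ AddSubgroup.zmultiples β) : v (chiT h χ z γ') = γ' := by
  obtain ⟨h1, h2, -⟩ := h.sec_spec hγ'
  unfold chiT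
  rw [v.map_mul (χ_ne _ h1) (zpow_ne_zero _ hz), χ_val _ h1, v.map_zpow hz, hvz]
  exact h2

theorem chiT_add (h : LatData Γ β q s) {χ : 𝕂 → Ω}
    (χ_add : ∀ γ ∈ Γ, ∀ δ ∈ Γ, χ (γ + δ) = χ γ * χ δ) {z : Ω} (hz : z ≠ 0)
    {γ' δ' : 𝕂} (hγ' : γ' ∈ Γ ⊔ AddSubgroup.zmultiples β)
    (hδ' : δ' ∈ Γ ⊔ AddSubgroup.zmultiples β) :
    chiT h χ z (γ' + δ') = chiT h χ z γ' * chiT h χ z δ' := by
  obtain ⟨a1, a2, a3⟩ := h.sec_spec hγ'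
  obtain ⟨b1, b2, b3⟩ := h.sec_spec hδ'
  obtain ⟨c1, c2, c3⟩ := h.sec_spec (AddSubgroup.add_mem _ hγ' hδ')
  have h1 := h.s_add _ a1 _ b1 (h.sec γ').2 (h.sec δ').2
  rw [a3, b3, add_zero] at h1
  have h2 := h.inj c1 (Γ.add_mem a1 b1) (l := (h.sec (γ' + δ')).2)
    (m := (h.sec γ').2 + (h.sec δ').2) (by
      rw [c2]
      push_cast
      linarith) (by rw [c3, h1])
  unfold chiT
  rw [h2.1, h2.2, χ_add _ a1 _ b1, zpow_add₀ hz]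
  ring

/-- Row H8, lattice part, in one statement. -/
theorem exists_lattice_step (hΓ : Γ.FG) {χ : 𝕂 → Ω} (χ_ne : ∀ γ ∈ Γ, χ γ ≠ 0)
    (χ_add : ∀ γ ∈ Γ, ∀ δ ∈ Γ, χ (γ + δ) = χ γ * χ δ) (χ_val : ∀ γ ∈ Γ, v (χ γ) = γ)
    {z : Ω} (hz : z ≠ 0) (hvz : v z = β) (hq : 0 < q) (hqβ : (q : 𝕂) * β ∈ Γ)
    (hmin : ∀ m : ℕ, 0 < m → (m : 𝕂) * β ∈ Γ → q ≤ m) :
    ∃ (Γ' : AddSubgroup 𝕂) (χ' : 𝕂 → Ω) (s : 𝕂 → ℤ → ℤ),
      Γ' = Γ ⊔ AddSubgroup.zmultiples β ∧ Γ'.FG ∧ LatData Γ β q s ∧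
      (∀ γ ∈ Γ', χ' γ ≠ 0) ∧ (∀ γ ∈ Γ', ∀ δ ∈ Γ', χ' (γ + δ) = χ' γ * χ' δ) ∧
      (∀ γ ∈ Γ', v (χ' γ) = γ) ∧
      (∀ γ ∈ Γ, ∀ l : ℤ, χ γ * z ^ l = χ' (γ + l * β) * (z ^ q / χ (q * β)) ^ s γ l) ∧
      (∀ γ' ∈ Γ', ∃ γ ∈ Γ, ∃ l : ℤ, γ + l * β = γ' ∧ χ' γ' = χ γ * z ^ l) := by
  obtain ⟨s, hs⟩ := exists_s Γ hΓ β q hq hqβ hmin
  refine ⟨_, chiT hs χ z, s, rfl, fg_sup Γ hΓ β, hs, fun γ hγ => chiT_ne hs χ_ne hz hγ,
    fun γ hγ δ hδ => chiT_add hs χ_add hz hγ hδ, fun γ hγ => chiT_val hs χ_ne χ_val hz hvz hγ,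
    fun γ hγ l => chiT_eq hs χ_ne χ_add hz hγ l, fun γ' hγ' => ?_⟩
  obtain ⟨a1, a2, -⟩ := hs.sec_spec hγ'
  exact ⟨_, a1, _, a2, rfl⟩

end Step

end Pool.Agent.ALLY
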