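import Mathlib

/-!
# The lattice lemma

`E` a field with a valuation ring `A` and a surjective ring homomorphism `res : A → k` whose kernel
consists of the non-units. The reduction of the lattice points of a subspace `K` of `E^ι` is a
subspace of `k^ι` of the same dimension.
-/

set_option autoImplicit false

namespace Pool.Agent.ALL4

open Module

variable {E k : Type*} [Field E] [Field k] {ι : Type*}

/-- The reduction of the lattice points of a subspace. -/
def red (A : ValuationSubring E) (res : A →+* k) (hres : Function.Surjective res)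
    (K : Submodule E (ι → E)) : Submodule k (ι → k) where
  carrier := {w | ∃ g : ι → A, (fun i => (g i : E)) ∈ K ∧ ∀ i, w i = res (g i)}
  add_mem' := by
    rintro w w' ⟨g, hg, hw⟩ ⟨g', hg', hw'⟩
    refine ⟨fun i => g i + g' i, ?_, fun i => ?_⟩
    · have : (fun i => ((g i + g' i : A) : E)) = (fun i => (g i : E)) + fun i => (g' i : E) := by
        funext i
        simp
      rw [this]
      exact K.add_mem hg hg'
    · rw [Pi.add_apply, hw, hw', map_add]
  zero_mem' := ⟨fun _ => 0, K.zero_mem, fun _ => (map_zero res).symm⟩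
  smul_mem' := by
    rintro c w ⟨g, hg, hw⟩
    obtain ⟨a, rfl⟩ := hres c
    refine ⟨fun i => a * g i, ?_, fun i => ?_⟩
    · have : (fun i => ((a * g i : A) : E)) = (a : E) • fun i => (g i : E) := by
        funext i
        simp
      rw [this]
      exact K.smul_mem _ hg
    · rw [Pi.smul_apply, hw, map_mul, smul_eq_mul]

lemma mem_red (A : ValuationSubring E) (res : A →+* k) (hres : Function.Surjective res)
    (K : Submodule E (ι → E)) (w : ι → k) :
    w ∈ red A res hres K ↔ ∃ g : ι → A, (fun i => (g i : E)) ∈ K ∧ ∀ i, w i = res (g i) := Iff.rfl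

/-- a normalised lattice point of a nonzero subspace -/
lemma exists_normal [Finite ι] (A : ValuationSubring E) {K : Submodule E (ι → E)} (hK : K ≠ ⊥) :
    ∃ g : ι → A, (fun i => (g i : E)) ∈ K ∧ ∃ i, g i = 1 := by
  classical
  have := Fintype.ofFinite ι
  obtain ⟨h, hh, h0⟩ := (Submodule.ne_bot_iff K).1 hK
  obtain ⟨j, hj⟩ := Function.ne_iff.1 h0
  obtain ⟨i, -, hi⟩ := Finset.exists_max_image Finset.univ (fun i => A.valuation (h i))
    ⟨j, Finset.mem_univ j⟩
  have hi0 : h i ≠ 0 := by
    intro h1
    have h2 := hi j (Finset.mem_univ j)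
    rw [h1, map_zero] at h2
    exact hj ((map_eq_zero A.valuation).1 (le_antisymm h2 zero_le))
  have hA : ∀ l, (h i)⁻¹ * h l ∈ A := by
    intro l
    rw [← A.valuation_le_one_iff, map_mul, map_inv₀]
    have h3 : A.valuation (h i) ≠ 0 := (map_ne_zero A.valuation).2 hi0
    rw [inv_mul_le_iff₀ (zero_lt_iff.2 h3), mul_one]
    exact hi l (Finset.mem_univ l)
  refine ⟨fun l => ⟨(h i)⁻¹ * h l, hA l⟩, ?_, i, ?_⟩
  · have : (fun l => (h i)⁻¹ * h l) = (h i)⁻¹ • h := by
      funext l
      simp
    change (fun l => (h i)⁻¹ * h l) ∈ K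
    rw [this]
    exact K.smul_mem _ hh
  · apply Subtype.ext
    change (h i)⁻¹ * h i = 1
    exact inv_mul_cancel₀ hi0

/-- the points with one coordinate zero -/
def hyp (K : Submodule E (ι → E)) (i : ι) : Submodule E (ι → E) :=
  K ⊓ LinearMap.ker (LinearMap.proj (R := E) (φ := fun _ : ι => E) i)

lemma finrank_hyp {F : Type*} [Field F] [Finite ι] (K : Submodule F (ι → F)) (i : ι) {g : ι → F}
    (hg : g ∈ K) (hgi : g i = 1) : finrank F K = finrank F (hyp K i) + 1 := by
  let φ : K →ₗ[F] F := (LinearMap.proj (R := F) (φ := fun _ : ι => F) i).domRestrict K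
  have h1 := LinearMap.finrank_range_add_finrank_ker φ
  have h2 : LinearMap.range φ = ⊤ := by
    rw [LinearMap.range_eq_top]
    intro c
    refine ⟨c • ⟨g, hg⟩, ?_⟩
    change (c • g) i = c
    rw [Pi.smul_apply, hgi, smul_eq_mul, mul_one]
  have h3 : finrank F (LinearMap.ker φ) = finrank F (hyp K i) := by
    have e : LinearMap.ker φ = (hyp K i).comap K.subtype := by
      ext x
      simp only [φ, hyp, LinearMap.mem_ker, Submodule.mem_comap, Submodule.mem_inf,
        LinearMap.domRestrict_apply, Submodule.subtype_apply, Submodule.coe_mem, true_and]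
    rw [e]
    exact (Submodule.comapSubtypeEquivOfLe (inf_le_left : hyp K i ≤ K)).finrank_eq
  rw [h2, finrank_top, finrank_self, h3] at h1
  omega

/-- **The lattice lemma.** -/
theorem finrank_red [Finite ι] (A : ValuationSubring E) (res : A →+* k)
    (hres : Function.Surjective res) (K : Submodule E (ι → E)) :
    finrank k (red A res hres K) = finrank E K := by
  induction' h : finrank E K with n ih generalizing K
  · have hK : K = ⊥ := Submodule.finrank_eq_zero.1 h
    have : red A res hres K = ⊥ := by
      rw [Submodule.eq_bot_iff]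
      rintro w ⟨g, hg, hw⟩
      rw [hK, Submodule.mem_bot] at hg
      funext i
      have h1 : g i = 0 := Subtype.ext (congrFun hg i)
      rw [hw, h1, map_zero, Pi.zero_apply]
    rw [this, finrank_bot]
  · have hK : K ≠ ⊥ := by
      rintro rfl
      rw [finrank_bot] at h
      omega
    obtain ⟨g, hg, i, hgi⟩ := exists_normal A hK
    have h1 := finrank_hyp K i hg (by rw [hgi]; rfl)
    have hg' : (fun j => res (g j)) ∈ red A res hres K := ⟨g, hg, fun _ => rfl⟩
    have h2 := finrank_hyp (red A res hres K) i hg' (by rw [hgi, map_one])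
    have h3 : hyp (red A res hres K) i = red A res hres (hyp K i) := by
      ext w
      constructor
      · rintro ⟨⟨g', hg'', hw⟩, hwi⟩
        have hwi' : w i = 0 := hwi
        refine ⟨fun j => g' j - g' i * g j, ⟨?_, ?_⟩, fun j => ?_⟩
        · have : (fun j => ((g' j - g' i * g j : A) : E)) =
              (fun j => (g' j : E)) - (g' i : E) • fun j => (g j : E) := by
            funext j
            simp
          rw [this]
          exact K.sub_mem hg'' (K.smul_mem _ hg)
        · change ((g' i - g' i * g i : A) : E) = 0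
          rw [hgi, mul_one, sub_self]
          rfl
        · rw [map_sub, map_mul, ← hw, ← hw, hwi', zero_mul, sub_zero]
      · rintro ⟨g', ⟨hg'', hgi'⟩, hw⟩
        refine ⟨⟨g', hg'', hw⟩, ?_⟩
        change w i = 0
        have hgi'' : (g' i : E) = 0 := hgi'
        have : g' i = 0 := Subtype.ext hgi''
        rw [hw, this, map_zero]
    rw [h2, h3, ih (hyp K i) (by omega)]

end Pool.Agent.ALL4
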